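import Mathlib
import Pool.Agent.H892.KT.Stm

/-!
# Project KT: the lift of `id + w` to the chart `(s, t)` of the blow-up
-/

set_option autoImplicit false

open Filter Topology Set
open Pool.Agent.H892.KT

namespace Pool.Agent.H612.KT

theorem norm_bB_le {z : ℂ × ℂ} {R : ℝ} (hR : 1 ≤ R) (hz : ‖z.2‖ < R) : ‖bB z‖ ≤ ‖z.1‖ * R := by
  unfold bB
  rw [Prod.norm_def]
  refine max_le ?_ ?_
  · exact le_mul_of_one_le_right (norm_nonneg _) hR
  · rw [norm_mul]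
    exact mul_le_mul_of_nonneg_left hz.le (norm_nonneg _)

theorem quot_le {a s : ℂ} {R : ℝ} (h : ‖a‖ ≤ (‖s‖ * R) ^ 3) :
    ‖a / s‖ ≤ ‖s‖ ^ 2 * R ^ 3 := by
  by_cases hs : s = 0
  · subst hs
    simp
  · have hs' : 0 < ‖s‖ := norm_pos_iff.mpr hs
    rw [norm_div, div_le_iff₀ hs']
    calc ‖a‖ ≤ (‖s‖ * R) ^ 3 := h
      _ = ‖s‖ ^ 2 * R ^ 3 * ‖s‖ := by ring

theorem diff_quot (h1 : S_QUOT) {O : Set (ℂ × ℂ)} (hO : IsOpen O) {g : ℂ × ℂ → ℂ}
    (hg : DifferentiableOn ℂ g O) {R : ℝ} (hR : 1 ≤ R)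
    (hle : ∀ z ∈ O, ‖g z‖ ≤ (‖z.1‖ * R) ^ 3) :
    DifferentiableOn ℂ (fun z => g z / z.1) O := by
  have h2 := h1 O hO g (fun z => (R : ℂ) * z.1) hg (by fun_prop) (by
    intro z hz
    rw [norm_mul, Complex.norm_real, Real.norm_of_nonneg (by linarith), mul_comm R]
    exact hle z hz)
  have hR' : (R : ℂ) ≠ 0 := by
    have : (0 : ℝ) < R := by linarith
    exact_mod_cast this.ne'
  have h3 := h2.const_mul (R : ℂ)
  refine h3.congr ?_
  intro z _
  rw [← mul_div_assoc, mul_div_mul_left _ _ hR']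

theorem t_HATB (h1 : S_QUOT) : S_HATB := by
  intro n K D i t
  have hR1 : (1 : ℝ) ≤ ‖t‖ + 1 := by
    have := norm_nonneg t
    linarith
  obtain ⟨R, hRdef⟩ : ∃ R : ℝ, R = ‖t‖ + 1 := ⟨_, rfl⟩
  rw [← hRdef] at hR1
  have hR0 : 0 < R := by linarith
  have hbc : Continuous bB := by
    unfold bB
    fun_prop
  have hbd : Differentiable ℂ bB := by
    unfold bB
    fun_prop
  have hw0 : D.w i 0 = 0 := by
    have := D.w_le i 0 (Metric.mem_ball_self D.r_pos)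
    rw [norm_zero] at this
    have h0 : ‖D.w i 0‖ ≤ 0 := by simpa using this
    exact norm_le_zero_iff.mp h0
  have hb0 : ∀ t' : ℂ, bB (0, t') = 0 := by
    intro t'
    unfold bB
    simp
  obtain ⟨O, hOdef⟩ : ∃ O : Set (ℂ × ℂ), O =
      ({z : ℂ × ℂ | ‖z.2‖ < R} ∩ {z : ℂ × ℂ | ‖z.1‖ ^ 2 * R ^ 3 < 1 / 4}) ∩ bB ⁻¹' (D.V i) :=
    ⟨_, rfl⟩
  have hO : IsOpen O := by
    rw [hOdef]
    refine IsOpen.inter (IsOpen.inter ?_ ?_) ((D.isOpen_V i).preimage hbc)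
    · exact isOpen_lt (by fun_prop) continuous_const
    · exact isOpen_lt (by fun_prop) continuous_const
  have hO1 : ∀ z ∈ O, ‖z.2‖ < R := fun z hz => by
    rw [hOdef] at hz
    exact hz.1.1
  have hO2 : ∀ z ∈ O, ‖z.1‖ ^ 2 * R ^ 3 < 1 / 4 := fun z hz => by
    rw [hOdef] at hz
    exact hz.1.2
  have hO3 : ∀ z ∈ O, bB z ∈ D.V i := fun z hz => by
    rw [hOdef] at hz
    exact hz.2
  have htO : ((0 : ℂ), t) ∈ O := by
    rw [hOdef]
    refine ⟨⟨?_, ?_⟩, ?_⟩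
    · show ‖t‖ < R
      linarith
    · show ‖(0 : ℂ)‖ ^ 2 * R ^ 3 < 1 / 4
      simp
    · show bB (0, t) ∈ D.V i
      rw [hb0]
      exact D.zero_mem i
  have hball : ∀ z ∈ O, bB z ∈ Metric.ball (0 : ℂ × ℂ) D.r := fun z hz => by
    rw [mem_ball_zero_iff]
    exact D.small i _ (hO3 z hz)
  have hle : ∀ z ∈ O, ‖D.w i (bB z)‖ ≤ (‖z.1‖ * R) ^ 3 := fun z hz =>
    (D.w_le i _ (hball z hz)).trans
      (pow_le_pow_left₀ (norm_nonneg _) (norm_bB_le hR1 (hO1 z hz)) 3)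
  have hle1 : ∀ z ∈ O, ‖(D.w i (bB z)).1‖ ≤ (‖z.1‖ * R) ^ 3 := fun z hz =>
    (norm_fst_le _).trans (hle z hz)
  have hle2 : ∀ z ∈ O, ‖(D.w i (bB z)).2‖ ≤ (‖z.1‖ * R) ^ 3 := fun z hz =>
    (norm_snd_le _).trans (hle z hz)
  have hwd : DifferentiableOn ℂ (fun z => D.w i (bB z)) O :=
    (D.w_diff i).comp hbd.differentiableOn (fun z hz => hball z hz)
  have hw1 : DifferentiableOn ℂ (fun z => (D.w i (bB z)).1) O := hwd.fst
  have hw2 : DifferentiableOn ℂ (fun z => (D.w i (bB z)).2) O := hwd.snd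
  have hd1 := diff_quot h1 hO hw1 hR1 hle1
  have hd2 := diff_quot h1 hO hw2 hR1 hle2
  have hq1 : ∀ z ∈ O, ‖(D.w i (bB z)).1 / z.1‖ ≤ ‖z.1‖ ^ 2 * R ^ 3 := fun z hz =>
    quot_le (hle1 z hz)
  have hq2 : ∀ z ∈ O, ‖(D.w i (bB z)).2 / z.1‖ ≤ ‖z.1‖ ^ 2 * R ^ 3 := fun z hz =>
    quot_le (hle2 z hz)
  have hlow : ∀ z ∈ O, 3 / 4 ≤ ‖1 + (D.w i (bB z)).1 / z.1‖ := fun z hz => by
    have h2 := hq1 z hz
    have h3 := hO2 z hz
    have h4 : ‖(1 : ℂ)‖ - ‖(D.w i (bB z)).1 / z.1‖ ≤ ‖1 + (D.w i (bB z)).1 / z.1‖ := by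
      have := norm_sub_norm_le (1 : ℂ) (-((D.w i (bB z)).1 / z.1))
      rwa [norm_neg, sub_neg_eq_add] at this
    rw [norm_one] at h4
    linarith
  have hne : ∀ z ∈ O, 1 + (D.w i (bB z)).1 / z.1 ≠ 0 := fun z hz => by
    have := hlow z hz
    intro h0
    rw [h0, norm_zero] at this
    norm_num at this
  have hzero : ∀ t' : ℂ, hatB (D.w i) (0, t') = (0, t') := by
    intro t'
    unfold hatB
    rw [hb0, hw0]
    simp
  refine ⟨O, hO, htO, ?_, ?_, hO3, hzero, ?_⟩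
  · unfold hatB
    refine DifferentiableOn.prodMk ?_ ?_
    · exact differentiable_fst.differentiableOn.add hw1
    · have ha : DifferentiableOn ℂ (fun z : ℂ × ℂ => z.2 + (D.w i (bB z)).2 / z.1) O :=
        differentiable_snd.differentiableOn.add hd2
      have hb : DifferentiableOn ℂ (fun z : ℂ × ℂ => 1 + (D.w i (bB z)).1 / z.1) O :=
        hd1.const_add 1
      have hc := ha.mul (hb.inv hne)
      refine hc.congr ?_
      intro z _
      show (z.2 + (D.w i (bB z)).2 / z.1) / (1 + (D.w i (bB z)).1 / z.1) =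
        (z.2 + (D.w i (bB z)).2 / z.1) * (1 + (D.w i (bB z)).1 / z.1)⁻¹
      rw [div_eq_mul_inv]
  · refine ⟨ContinuousLinearEquiv.refl ℂ (ℂ × ℂ), ?_⟩
    have hbig : (fun z : ℂ × ℂ => hatB (D.w i) z - z) =O[𝓝 ((0 : ℂ), t)]
        fun z => ‖z - ((0 : ℂ), t)‖ ^ 2 := by
      refine Asymptotics.IsBigO.of_bound (2 * R ^ 3 * (1 + R)) ?_
      filter_upwards [hO.mem_nhds htO] with z hz
      have hs : ‖z.1‖ ≤ ‖z - ((0 : ℂ), t)‖ := by
        have := norm_fst_le (z - ((0 : ℂ), t))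
        simpa using this
      have hs2 : ‖z.1‖ ^ 2 ≤ ‖z - ((0 : ℂ), t)‖ ^ 2 := pow_le_pow_left₀ (norm_nonneg _) hs 2
      rw [norm_pow, norm_norm]
      have hQ : ‖hatB (D.w i) z - z‖ ≤ 2 * R ^ 3 * (1 + R) * ‖z.1‖ ^ 2 := by
        have hR3 : 0 < R ^ 3 := by positivity
        have hn := norm_nonneg z.1
        have h2 := hO2 z hz
        have hR31 : 1 ≤ R ^ 3 := one_le_pow₀ hR1
        unfold hatB
        rw [Prod.norm_def]
        refine max_le ?_ ?_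
        · show ‖z.1 + (D.w i (bB z)).1 - z.1‖ ≤ _
          rw [add_sub_cancel_left]
          refine (hle1 z hz).trans ?_
          have h3 : ‖z.1‖ ≤ 1 := by
            by_contra hc
            push Not at hc
            have : 1 ≤ ‖z.1‖ ^ 2 := one_le_pow₀ hc.le
            nlinarith
          calc (‖z.1‖ * R) ^ 3 = ‖z.1‖ ^ 2 * R ^ 3 * ‖z.1‖ := by ring
            _ ≤ ‖z.1‖ ^ 2 * R ^ 3 * 1 := by
              exact mul_le_mul_of_nonneg_left h3 (by positivity)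
            _ ≤ 2 * R ^ 3 * (1 + R) * ‖z.1‖ ^ 2 := by
              have : 0 ≤ ‖z.1‖ ^ 2 * R ^ 3 * (2 * (1 + R) - 1) := by
                refine mul_nonneg (by positivity) (by linarith)
              nlinarith
        · show ‖(z.2 + (D.w i (bB z)).2 / z.1) / (1 + (D.w i (bB z)).1 / z.1) - z.2‖ ≤ _
          have h5 := hlow z hz
          have h6 := hne z hz
          have h7 := hq1 z hz
          have h8 := hq2 z hz
          have h9 := hO1 z hz
          generalize (D.w i (bB z)).1 / z.1 = a at h5 h6 h7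
          generalize (D.w i (bB z)).2 / z.1 = b at h8
          have h10 : (z.2 + b) / (1 + a) - z.2 = (b - z.2 * a) / (1 + a) := by
            field_simp
            ring
          rw [h10, norm_div, div_le_iff₀ (by linarith)]
          have h11 : ‖b - z.2 * a‖ ≤ ‖z.1‖ ^ 2 * R ^ 3 * (1 + R) := by
            refine (norm_sub_le _ _).trans ?_
            rw [norm_mul]
            have h12 : ‖z.2‖ * ‖a‖ ≤ R * (‖z.1‖ ^ 2 * R ^ 3) :=
              mul_le_mul h9.le h7 (norm_nonneg _) hR0.le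
            nlinarith
          refine h11.trans ?_
          have h13 : 0 ≤ 2 * R ^ 3 * (1 + R) * ‖z.1‖ ^ 2 := by positivity
          calc ‖z.1‖ ^ 2 * R ^ 3 * (1 + R) ≤ 2 * R ^ 3 * (1 + R) * ‖z.1‖ ^ 2 * (3 / 4) := by
                have : 0 ≤ ‖z.1‖ ^ 2 * R ^ 3 * (1 + R) := by positivity
                nlinarith
            _ ≤ 2 * R ^ 3 * (1 + R) * ‖z.1‖ ^ 2 * ‖1 + a‖ :=
                mul_le_mul_of_nonneg_left h5 h13
      refine hQ.trans ?_
      exact mul_le_mul_of_nonneg_left hs2 (by positivity)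
    have hf0 : HasFDerivAt (fun z : ℂ × ℂ => hatB (D.w i) z - z) (0 : ℂ × ℂ →L[ℂ] ℂ × ℂ)
        ((0 : ℂ), t) := hbig.hasFDerivAt (by norm_num)
    have hf1 := hf0.add (hasFDerivAt_id ((0 : ℂ), t))
    have hf2 : HasFDerivAt (hatB (D.w i)) (ContinuousLinearMap.id ℂ (ℂ × ℂ)) ((0 : ℂ), t) := by
      have hfun : (fun z : ℂ × ℂ => hatB (D.w i) z - z) + id = hatB (D.w i) := by
        funext z
        simp
      rw [zero_add] at hf1
      rw [← hfun]
      exact hf1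
    rw [hf2.fderiv]
    rfl
  · intro z hz hz1
    have h2 := hne z hz
    have h3 : z.1 + (D.w i (bB z)).1 = z.1 * (1 + (D.w i (bB z)).1 / z.1) := by
      field_simp
    have h4 : (hatB (D.w i) z).1 = z.1 + (D.w i (bB z)).1 := rfl
    have h5 : (hatB (D.w i) z).2 =
      (z.2 + (D.w i (bB z)).2 / z.1) / (1 + (D.w i (bB z)).1 / z.1) := rfl
    have h6 : (hatB (D.w i) z).1 ≠ 0 := by
      rw [h4, h3]
      exact mul_ne_zero hz1 h2
    refine ⟨h6, ?_⟩
    apply Prod.ext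
    · show (hatB (D.w i) z).1 = (bB z).1 + (D.w i (bB z)).1
      rw [h4]
      rfl
    · show (hatB (D.w i) z).1 * (hatB (D.w i) z).2 = (bB z).2 + (D.w i (bB z)).2
      have h7 : (bB z).2 = z.1 * z.2 := rfl
      rw [h4, h5, h3, h7]
      generalize 1 + (D.w i (bB z)).1 / z.1 = u at h2
      have h8 : z.1 * u * ((z.2 + (D.w i (bB z)).2 / z.1) / u) =
          z.1 * (z.2 + (D.w i (bB z)).2 / z.1) := by
        field_simp
      rw [h8, mul_add, mul_div_cancel₀ _ hz1]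

end Pool.Agent.H612.KT
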